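import Pool.Agent.H97.Wgt3

namespace Pool.Agent.Results.MP_658dbf_an.UpTo3

open Real MeasureTheory Filter Topology Polynomial Pool.Agent.H97.Wgt

lemma J_eq (μ : ℝ) (h : 0 < μ) (n : ℕ) (P : ℤ[X]) :
    J (μ + n) P = ∫ θ in (-π)..π, w μ θ * ‖aeval (E θ) ((1 - X) ^ n * P)‖ ^ 2 := by
  unfold J
  refine intervalIntegral.integral_congr fun θ _ => ?_
  simp only [map_mul, map_pow, map_sub, map_one, aeval_X, norm_mul, norm_pow, w, E]
  rw [mul_add, Real.rpow_add' (norm_nonneg _) (by positivity), mul_pow, ← pow_mul,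
    show (2 : ℝ) * n = ((n * 2 : ℕ) : ℝ) by push_cast; ring, Real.rpow_natCast]
  ring

lemma inf_eq (l v : ℝ) (hl : ∀ P : ℤ[X], P.Monic → v ≤ J l P) (P : ℕ → ℤ[X])
    (hP : ∀ n, (P n).Monic) (ht : Tendsto (fun n => J l (P n)) atTop (𝓝 v)) : Iinf l = v := by
  unfold Iinf
  apply le_antisymm
  · refine ge_of_tendsto' ht fun n => csInf_le ⟨v, ?_⟩ ⟨P n, hP n, rfl⟩
    rintro t ⟨Q, hQ, rfl⟩
    exact hl Q hQ
  · refine le_csInf ⟨_, P 0, hP 0, rfl⟩ ?_
    rintro t ⟨Q, hQ, rfl⟩
    exact hl Q hQ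

lemma W_eq (μ : ℝ) : W μ = ∫ θ in (-π)..π, w μ θ := rfl

lemma W_succ (μ : ℝ) (h : 0 < μ) : W (μ + 1) = ∫ θ in (-π)..π, w μ θ * (2 - 2 * cos θ) := by
  rw [W_eq]
  refine intervalIntegral.integral_congr fun θ _ => ?_
  have h1 := norm_one_sub 1 θ
  rw [pow_one, Nat.cast_one, one_mul] at h1
  simp only [w]
  rw [mul_add, Real.rpow_add' (norm_nonneg _) (by positivity), mul_one, Real.rpow_two, h1]

noncomputable def G (n : ℕ) : ℤ[X] := ∑ i ∈ Finset.range (n + 1), X ^ i

lemma G_monic (n : ℕ) : (G n).Monic := monic_geom_sum_X (Nat.succ_ne_zero n)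

lemma G_mul (n : ℕ) : (1 - X) * G n = 1 - X ^ (n + 1) := mul_neg_geom_sum _ _

lemma one_sub_ne : (1 - X : ℤ[X]) ≠ 0 := by simpa using ne0 1 one_pos

lemma part1 (μ : ℝ) (h0 : 0 < μ) (h1 : μ ≤ 1) : Iinf μ = W μ := by
  refine inf_eq μ _ (fun P hP => ?_) (fun _ => 1) (fun _ => monic_one) ?_
  · have h := lower μ h0 h1 P 1 0 fun K => by
      rw [neg_zero]
      refine Finset.sum_nonneg fun k _ => ?_
      have := N_ge2 (k + 1) (Nat.succ_pos _) P hP.ne_zero
      unfold N at this
      omega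
    have e := J_eq μ h0 0 P
    simp only [Nat.cast_zero, add_zero, pow_zero, one_mul] at e
    rw [e, W_eq]
    simpa using h
  · have : J μ 1 = W μ := by simp [J, W]
    simp [this]

lemma part2 (μ : ℝ) (h0 : 0 < μ) (h1 : μ ≤ 1) : Iinf (μ + 1) = 2 * W μ := by
  have hw := w_cont μ h0.le
  refine inf_eq _ _ (fun P hP => ?_) G G_monic ?_
  · have h := lower μ h0 h1 ((1 - X) ^ 1 * P) 2 0 fun K => by
      rw [neg_zero]
      refine Finset.sum_nonneg fun k _ => ?_
      have := N_ge4 (k + 1) (Nat.succ_pos _) ((1 - X) ^ 1 * P)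
        (mul_ne_zero (pow_ne_zero _ one_sub_ne) hP.ne_zero) (by simp)
      unfold N at this
      omega
    have e := J_eq μ h0 1 P
    rw [Nat.cast_one] at e
    rw [e, W_eq]
    refine le_trans (le_of_eq ?_) h
    rw [← intervalIntegral.integral_const_mul]
    refine intervalIntegral.integral_congr fun θ _ => ?_
    simp [mul_comm]
  · have e : ∀ n, J (μ + 1) (G n) =
        2 * W μ - 2 * ∫ θ in (-π)..π, w μ θ * cos (((n + 1 : ℕ) : ℝ) * θ) := by
      intro n
      have e := J_eq μ h0 1 (G n)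
      rw [Nat.cast_one, pow_one, G_mul] at e
      rw [e, W_eq, ← intervalIntegral.integral_const_mul, ← intervalIntegral.integral_const_mul,
        ← intervalIntegral.integral_sub (Continuous.intervalIntegrable (by fun_prop) _ _)
          (Continuous.intervalIntegrable (by fun_prop) _ _)]
      refine intervalIntegral.integral_congr fun θ _ => ?_
      simp only [map_sub, map_one, map_pow, aeval_X]
      rw [norm_one_sub]
      ring
    simp only [e]
    have := ((RL _ hw).comp (tendsto_add_atTop_nat 1)).const_mul 2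
    simpa using this.const_sub (2 * W μ)

lemma part3 (μ : ℝ) (h0 : 0 < μ) (h1 : μ ≤ 1) : Iinf (μ + 2) = 6 * W μ - W (μ + 1) := by
  have hw := w_cont μ h0.le
  have hv : 6 * W μ - W (μ + 1) = ∫ θ in (-π)..π, w μ θ * (4 + 2 * cos θ) := by
    rw [W_succ μ h0, W_eq, ← intervalIntegral.integral_const_mul,
      ← intervalIntegral.integral_sub (Continuous.intervalIntegrable (by fun_prop) _ _)
        (Continuous.intervalIntegrable (by fun_prop) _ _)]
    refine intervalIntegral.integral_congr fun θ _ => ?_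
    ring
  rw [hv]
  refine inf_eq _ _ (fun P hP => ?_) (fun n => G n * G (n + 1))
    (fun n => (G_monic n).mul (G_monic _)) ?_
  · have h := lower μ h0 h1 ((1 - X) ^ 2 * P) 4 2 fun K =>
      main3 ((1 - X) ^ 2 * P) (mul_ne_zero (pow_ne_zero _ one_sub_ne) hP.ne_zero) (by simp)
        (by simp [derivative_mul, derivative_pow]) K
    have e := J_eq μ h0 2 P
    rw [Nat.cast_ofNat] at e
    rw [e]
    simpa using h
  · set c : ℕ → ℝ := fun k => ∫ θ in (-π)..π, w μ θ * cos ((k : ℝ) * θ) with hc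
    have e : ∀ n, J (μ + 2) (G n * G (n + 1)) = (∫ θ in (-π)..π, w μ θ * (4 + 2 * cos θ)) +
        (-4 * c (n + 1) + (-4 * c (n + 2) + 2 * c (2 * n + 3))) := by
      intro n
      have e := J_eq μ h0 2 (G n * G (n + 1))
      have e2 : (1 - X) ^ 2 * (G n * G (n + 1)) = (1 - X ^ (n + 1)) * (1 - X ^ (n + 2)) := by
        rw [← G_mul, ← G_mul]
        ring
      rw [Nat.cast_ofNat, e2] at e
      have hi : ∀ (a : ℝ) (k : ℕ), IntervalIntegrable
          (fun θ => a * (w μ θ * cos ((k : ℝ) * θ))) volume (-π) π :=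
        fun a k => Continuous.intervalIntegrable (by fun_prop) _ _
      simp only [hc]
      rw [e, ← intervalIntegral.integral_const_mul, ← intervalIntegral.integral_const_mul,
        ← intervalIntegral.integral_const_mul,
        ← intervalIntegral.integral_add (hi _ _) (hi _ _),
        ← intervalIntegral.integral_add (hi _ _) ((hi _ _).add (hi _ _)),
        ← intervalIntegral.integral_add (Continuous.intervalIntegrable (by fun_prop) _ _)
          ((hi _ _).add ((hi _ _).add (hi _ _)))]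
      refine intervalIntegral.integral_congr fun θ _ => ?_
      simp only [map_mul, map_sub, map_one, map_pow, aeval_X]
      rw [norm_mul, mul_pow, norm_one_sub, norm_one_sub]
      have c1 : cos (((2 * n + 3 : ℕ) : ℝ) * θ) =
          cos (((n + 2 : ℕ) : ℝ) * θ + ((n + 1 : ℕ) : ℝ) * θ) := by
        congr 1; push_cast; ring
      have c2 : cos θ = cos (((n + 2 : ℕ) : ℝ) * θ - ((n + 1 : ℕ) : ℝ) * θ) := by
        congr 1; push_cast; ring
      rw [c1, c2, cos_add, cos_sub]
      ring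
    simp only [e]
    have hr : Tendsto c atTop (𝓝 0) := RL _ hw
    have t1 := (hr.comp (tendsto_add_atTop_nat 1)).const_mul (-4)
    have t2 := (hr.comp (tendsto_add_atTop_nat 2)).const_mul (-4)
    have t3 := (hr.comp (show Tendsto (fun n : ℕ => 2 * n + 3) atTop atTop from
      tendsto_atTop_mono (fun n => by simp only [id]; omega) tendsto_id)).const_mul 2
    have := (t1.add (t2.add t3)).const_add (∫ θ in (-π)..π, w μ θ * (4 + 2 * cos θ))
    simpa using this

theorem result :
    (∀ l : ℝ, 0 < l → l ≤ 1 → Iinf l = W l) ∧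
    (∀ l : ℝ, 1 < l → l ≤ 2 → Iinf l = 2 * W (l - 1)) ∧
    (∀ l : ℝ, 2 < l → l ≤ 3 → Iinf l = 6 * W (l - 2) - W (l - 1)) := by
  refine ⟨part1, fun l h0 h1 => ?_, fun l h0 h1 => ?_⟩
  · have := part2 (l - 1) (by linarith) (by linarith)
    rwa [sub_add_cancel] at this
  · have := part3 (l - 2) (by linarith) (by linarith)
    rwa [sub_add_cancel, show l - 2 + 1 = l - 1 by ring] at this

end Pool.Agent.Results.MP_658dbf_an.UpTo3
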